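import Pool.Agent.helper81.EP.SpecC

/-! Module ep:CB (helper13): the set of `n` with `rs A n` not empty. -/

set_option autoImplicit false

open Finset

namespace Pool.Agent.EP

theorem CB_tri (r : ℕ) : 8 * tri r + 1 = (2 * r + 1) ^ 2 := by
  have h1 : tri r * 2 = r * (r + 1) := Nat.div_mul_cancel (Nat.even_mul_succ_self r).two_dvd
  have h2 : (2 * r + 1) ^ 2 = 4 * (r * (r + 1)) + 1 := by ring
  rw [h2, ← h1]
  ring

theorem CB : CB_stmt := by
  classical
  intro A X hA
  have hsub : {n ∈ range (X + 1) | rs A n ≠ ∅} ⊆
      (range (Nat.sqrt (8 * X + 1) + 1) ×ˢ range (X / A + 1)).image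
        (fun p : ℕ × ℕ => tri p.1 + A * p.2) := by
    intro n hn
    rw [mem_filter, mem_range] at hn
    obtain ⟨hnX, hne⟩ := hn
    obtain ⟨r, hr⟩ := Finset.nonempty_iff_ne_empty.2 hne
    rw [rs, mem_filter] at hr
    obtain ⟨-, hr1, m, hm⟩ := hr
    rw [mem_image]
    refine ⟨(r, m), ?_, ?_⟩
    · rw [mem_product, mem_range, mem_range]
      constructor
      · show r < Nat.sqrt (8 * X + 1) + 1
        have h1 := CB_tri r
        have h2 : 2 * r + 1 ≤ Nat.sqrt (8 * X + 1) := by
          rw [Nat.le_sqrt']
          omega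
        omega
      · show m < X / A + 1
        have h1 : m ≤ X / A := by
          rw [Nat.le_div_iff_mul_le hA, mul_comm]
          omega
        omega
    · show tri r + A * m = n
      omega
  refine (card_le_card hsub).trans (card_image_le.trans ?_)
  rw [card_product, card_range, card_range]

end Pool.Agent.EP
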