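import Pool.Agent.helper71.EP.SpecE

/-! # Project ep (MP_ebc808_nt): module EBM (multiplicity of the numbers) -/

set_option autoImplicit false

open Finset

namespace Pool.Agent.EP

/-- reconstruction of `u` -/
def EBM_u (e F : ℕ) : ℕ := (e + F / (3 * e)) / 2

theorem EBM_rec {u w F : ℕ} (hw : w < u) (hF : F + 3 * w ^ 2 = 3 * u ^ 2) :
    (u - w) ∣ F ∧ EBM_u (u - w) F = u := by
  obtain ⟨e, rfl⟩ : ∃ e, u = w + e := ⟨u - w, by omega⟩
  have he : 0 < e := by omega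
  have h1 : F = 3 * e * (2 * w + e) := by
    have h2 : F + 3 * w ^ 2 = 3 * e * (2 * w + e) + 3 * w ^ 2 := by rw [hF]; ring
    omega
  have h3 : w + e - w = e := by omega
  rw [h3]
  refine ⟨⟨3 * (2 * w + e), by rw [h1]; ring⟩, ?_⟩
  unfold EBM_u
  rw [h1, Nat.mul_div_cancel_left _ (by omega)]
  omega

theorem EBM_card {D : ℕ} (A : Finset (ℕ × ℕ)) (S : Finset ℕ) (F : ℕ → ℕ)
    (g : ℕ → ℕ → ℕ × ℕ) (hS : #S ≤ D) (hF : ∀ p ∈ S, #(F p).divisors ≤ D)
    (hA : ∀ z ∈ A, ∃ p ∈ S, ∃ e ∈ (F p).divisors, g p e = z) : #A ≤ D * D := by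
  have h1 : A ⊆ S.biUnion fun p => (F p).divisors.image (g p) := by
    intro z hz
    obtain ⟨p, hp, e, he, rfl⟩ := hA z hz
    rw [Finset.mem_biUnion]
    exact ⟨p, hp, Finset.mem_image_of_mem _ he⟩
  refine le_trans (Finset.card_le_card h1) ?_
  refine le_trans (Finset.card_biUnion_le_card_mul S _ D fun p hp => ?_) ?_
  · exact le_trans Finset.card_image_le (hF p hp)
  · exact Nat.mul_le_mul_right _ hS

open Classical in
theorem EBM_A {U D n : ℕ} (hD : ∀ k : ℕ, 0 < k → k ≤ 24 * U ^ 4 → #k.divisors ≤ D)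
    (hn : n ≤ U ^ 4) :
    #{z ∈ Pq U | ∃ w : ℕ, 3 * w ^ 2 < 4 * z.2 ∧
      24 * n = (4 * z.2 - 3 * w ^ 2) * (3 * z.1 ^ 2 - 4 * z.2) + 1} ≤ D * D := by
  rcases Nat.eq_zero_or_pos n with h0 | h0
  · subst h0
    have h1 : ({z ∈ Pq U | ∃ w : ℕ, 3 * w ^ 2 < 4 * z.2 ∧
      24 * 0 = (4 * z.2 - 3 * w ^ 2) * (3 * z.1 ^ 2 - 4 * z.2) + 1} : Finset (ℕ × ℕ)) = ∅ := by
      refine Finset.filter_eq_empty_iff.2 fun z _ => ?_
      rintro ⟨w, -, hw⟩
      omega
    rw [h1, Finset.card_empty]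
    exact Nat.zero_le _
  have hU : 24 * n ≤ 24 * U ^ 4 := Nat.mul_le_mul_left _ hn
  set K : ℕ := 24 * n - 1 with hK
  have hK0 : 0 < K := by omega
  refine EBM_card _ K.divisors (fun p => K / p + p)
    (fun p e => (EBM_u e (K / p + p), (3 * EBM_u e (K / p + p) ^ 2 - p) / 4))
    (hD K hK0 (by omega)) ?_ ?_
  · intro p hp
    have hp' := Nat.mem_divisors.1 hp
    have hp0 : 0 < p := Nat.pos_of_mem_divisors hp
    refine hD _ (Nat.add_pos_right _ hp0) ?_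
    obtain ⟨c, hc⟩ := hp'.1
    have hc0 : 0 < c := by
      rcases Nat.eq_zero_or_pos c with h | h
      · rw [h, mul_zero] at hc; omega
      · exact h
    have h2 : K / p = c := by rw [hc, Nat.mul_div_cancel_left _ hp0]
    rw [h2]
    have h3 : c + p ≤ p * c + 1 := by nlinarith
    omega
  · intro z hz
    rw [Finset.mem_filter] at hz
    obtain ⟨hz1, w, hw1, hw2⟩ := hz
    unfold Pq at hz1
    rw [Finset.mem_filter] at hz1
    obtain ⟨-, -, -, hq, -, hlt, hp⟩ := hz1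
    obtain ⟨u, q⟩ := z
    simp only at hw1 hw2 hq hlt hp
    have hp0 := hp.pos
    set p : ℕ := 3 * u ^ 2 - 4 * q with hpd
    set j : ℕ := 4 * q - 3 * w ^ 2 with hjd
    have hKp : K = p * j := by
      rw [hK, hw2, Nat.add_sub_cancel, mul_comm]
    have hKj : K / p = j := by rw [hKp, Nat.mul_div_cancel_left _ hp0]
    have hwu : w < u := by
      have h4 : 3 * w ^ 2 < 3 * u ^ 2 := by omega
      have h5 : w ^ 2 < u ^ 2 := by omega
      exact lt_of_pow_lt_pow_left₀ 2 (Nat.zero_le _) h5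
    have hF : (j + p) + 3 * w ^ 2 = 3 * u ^ 2 := by omega
    obtain ⟨h6, h7⟩ := EBM_rec hwu hF
    refine ⟨p, ?_, u - w, ?_, ?_⟩
    · rw [Nat.mem_divisors]
      exact ⟨⟨j, hKp⟩, by omega⟩
    · rw [Nat.mem_divisors, hKj]
      exact ⟨h6, by omega⟩
    · rw [hKj, h7]
      congr 1
      omega

open Classical in
theorem EBM_B {U D n : ℕ} (hD : ∀ k : ℕ, 0 < k → k ≤ 24 * U ^ 4 → #k.divisors ≤ D)
    (hn : n ≤ U ^ 4) :
    #{z ∈ Pq U | ∃ w : ℕ, 3 * w ^ 2 < 3 * z.1 ^ 2 - 4 * z.2 ∧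
      96 * n = z.2 * (3 * z.1 ^ 2 - 4 * z.2 - 3 * w ^ 2) + 4} ≤ D * D := by
  rcases Nat.eq_zero_or_pos n with h0 | h0
  · subst h0
    have h1 : ({z ∈ Pq U | ∃ w : ℕ, 3 * w ^ 2 < 3 * z.1 ^ 2 - 4 * z.2 ∧
      96 * 0 = z.2 * (3 * z.1 ^ 2 - 4 * z.2 - 3 * w ^ 2) + 4} : Finset (ℕ × ℕ)) = ∅ := by
      refine Finset.filter_eq_empty_iff.2 fun z _ => ?_
      rintro ⟨w, -, hw⟩
      omega
    rw [h1, Finset.card_empty]
    exact Nat.zero_le _
  have hU : 24 * n ≤ 24 * U ^ 4 := Nat.mul_le_mul_left _ hn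
  have hU0 : 0 < U := by
    rcases Nat.eq_zero_or_pos U with h | h
    · subst h
      simp at hn
      omega
    · exact h
  have hU4 : U ^ 2 ≤ U ^ 4 := Nat.pow_le_pow_right hU0 (by norm_num)
  set K : ℕ := 24 * n - 1 with hK
  have hK0 : 0 < K := by omega
  refine EBM_card _ (K.divisors.filter fun q => 4 * K / q + 4 * q ≤ 3 * U ^ 2)
    (fun q => 4 * K / q + 4 * q)
    (fun q e => (EBM_u e (4 * K / q + 4 * q), q))
    (le_trans (Finset.card_filter_le _ _) (hD K hK0 (by omega))) ?_ ?_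
  · intro q hq
    rw [Finset.mem_filter] at hq
    have hp0 : 0 < q := Nat.pos_of_mem_divisors hq.1
    refine hD _ (Nat.add_pos_right _ (by omega)) ?_
    have h3 := hq.2
    show 4 * K / q + 4 * q ≤ 24 * U ^ 4
    omega
  · intro z hz
    rw [Finset.mem_filter] at hz
    obtain ⟨hz1, w, hw1, hw2⟩ := hz
    unfold Pq at hz1
    rw [Finset.mem_filter] at hz1
    obtain ⟨hz0, -, hq24, hq, -, hlt, hp⟩ := hz1
    obtain ⟨u, q⟩ := z
    rw [Finset.mem_product, Finset.mem_Ioc] at hz0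
    simp only at hw1 hw2 hq hlt hp hq24 hz0
    have hq0 := hq.pos
    set i : ℕ := 3 * u ^ 2 - 4 * q - 3 * w ^ 2 with hid
    have hKq : 4 * K = q * i := by omega
    have hKi : 4 * K / q = i := by rw [hKq, Nat.mul_div_cancel_left _ hq0]
    have hqK : q ∣ K := by
      have h3 : q ∣ 4 * K := ⟨i, hKq⟩
      have h4 : Nat.Coprime q 4 := by
        have h5 : q ≠ 2 := by omega
        have h6 : Nat.Coprime q 2 := by
          rw [Nat.coprime_primes hq Nat.prime_two]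
          exact h5
        have h7 : Nat.Coprime q (2 * 2) := Nat.Coprime.mul_right h6 h6
        exact h7
      exact h4.dvd_of_dvd_mul_left h3
    have hwu : w < u := by
      have h4 : 3 * w ^ 2 < 3 * u ^ 2 := by omega
      have h5 : w ^ 2 < u ^ 2 := by omega
      exact lt_of_pow_lt_pow_left₀ 2 (Nat.zero_le _) h5
    have hF : (i + 4 * q) + 3 * w ^ 2 = 3 * u ^ 2 := by omega
    obtain ⟨h6, h7⟩ := EBM_rec hwu hF
    have huU : u ^ 2 ≤ U ^ 2 := Nat.pow_le_pow_left hz0.1.2 2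
    refine ⟨q, ?_, u - w, ?_, ?_⟩
    · rw [Finset.mem_filter, Nat.mem_divisors, hKi]
      exact ⟨⟨hqK, by omega⟩, by omega⟩
    · rw [Nat.mem_divisors, hKi]
      exact ⟨h6, by omega⟩
    · rw [hKi, h7]

theorem EBM : EBM_stmt := by
  classical
  intro U D hD n hn
  have hA := EBM_A hD hn
  have hB := EBM_B hD hn
  refine le_trans (Finset.card_le_card (t := {z ∈ Pq U | ∃ w : ℕ, 3 * w ^ 2 < 4 * z.2 ∧
      24 * n = (4 * z.2 - 3 * w ^ 2) * (3 * z.1 ^ 2 - 4 * z.2) + 1} ∪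
      {z ∈ Pq U | ∃ w : ℕ, 3 * w ^ 2 < 3 * z.1 ^ 2 - 4 * z.2 ∧
      96 * n = z.2 * (3 * z.1 ^ 2 - 4 * z.2 - 3 * w ^ 2) + 4}) ?_) ?_
  · intro z hz
    rw [Finset.mem_filter] at hz
    rw [Finset.mem_union, Finset.mem_filter, Finset.mem_filter]
    rcases hz.2.2 with h | h
    · exact Or.inl ⟨hz.1, h⟩
    · exact Or.inr ⟨hz.1, h⟩
  · refine le_trans (Finset.card_union_le _ _) ?_
    have h2 : 2 * D ^ 2 = D * D + D * D := by ring
    rw [h2]
    exact Nat.add_le_add hA hB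

end Pool.Agent.EP
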