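import Pool.Agent.helper71.EP.SpecE
import Pool.Agent.helper61.TG.WT6

/-! # Project ep (MP_ebc808_nt): module EF4 (the fourth moment is a number of quadruples) -/

set_option autoImplicit false

open Finset
open Pool.Agent.helper74.TG

namespace Pool.Agent.EP

/-- second moment of an exponential sum with multiplicities -/
theorem EF4_sec {ι : Type} [DecidableEq ι] (P : ℕ) (K : Finset ι) (f : ι → ℕ)
    (hK : ∀ x ∈ K, f x < P) :
    ∑ k ∈ range P, ‖∑ z ∈ K, ee ((f z : ℝ) * ((k : ℝ) / P))‖ ^ 2 =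
      P * (#{v ∈ K ×ˢ K | f v.1 = f v.2} : ℝ) := by
  have key : (∑ k ∈ range P, ((‖∑ z ∈ K, ee ((f z : ℝ) * ((k : ℝ) / P))‖ ^ 2 : ℝ) : ℂ)) =
      ((P * (#{v ∈ K ×ˢ K | f v.1 = f v.2} : ℝ) : ℝ) : ℂ) := by
    have h1 : ∀ k ∈ range P, ((‖∑ z ∈ K, ee ((f z : ℝ) * ((k : ℝ) / P))‖ ^ 2 : ℝ) : ℂ) =
        ∑ v ∈ K ×ˢ K, ee (k * ((((f v.1 : ℤ) - (f v.2 : ℤ) : ℤ) : ℝ) / P)) := by
      intro k _
      rw [Complex.ofReal_pow, ← Complex.mul_conj', map_sum, Finset.sum_mul_sum,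
        ← Finset.sum_product']
      refine Finset.sum_congr rfl fun v _ => ?_
      rw [← h61.ee_neg, ← h61.ee_add]
      congr 1
      push_cast
      ring
    rw [Finset.sum_congr rfl h1, Finset.sum_comm]
    have h2 : ∀ v ∈ K ×ˢ K, (∑ k ∈ range P,
        ee (k * ((((f v.1 : ℤ) - (f v.2 : ℤ) : ℤ) : ℝ) / P))) =
          if f v.1 = f v.2 then (P : ℂ) else 0 := by
      intro v hv
      rw [Finset.mem_product] at hv
      have h4 := hK v.1 hv.1
      have h5 := hK v.2 hv.2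
      rw [h61.orth P _ (by
        rw [abs_lt]
        constructor <;> omega)]
      by_cases hyz : f v.1 = f v.2
      · rw [if_pos hyz, if_pos (by omega)]
      · rw [if_neg hyz, if_neg (by omega)]
    rw [Finset.sum_congr rfl h2, ← Finset.sum_filter, Finset.sum_const, nsmul_eq_mul]
    push_cast
    ring
  exact_mod_cast key

theorem EF4_mono (m : ℕ) : Monotone (hq m) := by
  intro s t hst
  unfold hq
  have h1 : s ^ 2 ≤ t ^ 2 := Nat.pow_le_pow_left hst 2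
  have h2 : 3 * m * s ^ 2 ≤ 3 * m * t ^ 2 := Nat.mul_le_mul_left _ h1
  omega

theorem EF4 : EF4_stmt := by
  intro m T P hP
  have h := EF4_sec P (Ioc 0 T ×ˢ Ioc 0 T) (fun v : ℕ × ℕ => hq m v.1 + hq m v.2) (by
    intro v hv
    rw [Finset.mem_product, Finset.mem_Ioc, Finset.mem_Ioc] at hv
    have h1 := EF4_mono m hv.1.2
    have h2 := EF4_mono m hv.2.2
    show hq m v.1 + hq m v.2 < P
    omega)
  have h3 : ∀ k ∈ range P, ‖∑ t ∈ Ioc 0 T, ee ((hq m t : ℝ) * ((k : ℝ) / P))‖ ^ 4 =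
      ‖∑ z ∈ Ioc 0 T ×ˢ Ioc 0 T, ee (((hq m z.1 + hq m z.2 : ℕ) : ℝ) * ((k : ℝ) / P))‖ ^ 2 := by
    intro k _
    have h4 : ∑ z ∈ Ioc 0 T ×ˢ Ioc 0 T, ee (((hq m z.1 + hq m z.2 : ℕ) : ℝ) * ((k : ℝ) / P)) =
        (∑ t ∈ Ioc 0 T, ee ((hq m t : ℝ) * ((k : ℝ) / P))) ^ 2 := by
      rw [sq, Finset.sum_mul_sum, ← Finset.sum_product']
      refine Finset.sum_congr rfl fun v _ => ?_
      rw [← h61.ee_add]
      congr 1
      push_cast
      ring
    rw [h4, norm_pow]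
    ring
  rw [Finset.sum_congr rfl h3]
  exact h

end Pool.Agent.EP
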