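import Pool.Agent.helper71.EP.SpecE

/-! # Project ep (MP_ebc808_nt): module EHO (two applications of Cauchy-Schwarz) -/

set_option autoImplicit false

open Finset

namespace Pool.Agent.EP

theorem EHO : EHO_stmt := by
  intro P E F W e hE hF hW he
  have he0 : 0 ≤ e := le_trans (hE 0) (he 0)
  have h1 : (∑ k ∈ range P, F k * (E k * W k)) ^ 2 ≤
      (∑ k ∈ range P, F k ^ 2) * ∑ k ∈ range P, (E k * W k) ^ 2 :=
    Finset.sum_mul_sq_le_sq_mul_sq _ _ _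
  have h2 : ∑ k ∈ range P, (E k * W k) ^ 2 ≤ e * ∑ k ∈ range P, E k * W k ^ 2 := by
    rw [Finset.mul_sum]
    refine Finset.sum_le_sum fun k _ => ?_
    have h3 : (E k * W k) ^ 2 = E k * (E k * W k ^ 2) := by ring
    rw [h3]
    exact mul_le_mul_of_nonneg_right (he k) (mul_nonneg (hE k) (sq_nonneg _))
  have h4 : (∑ k ∈ range P, E k * W k ^ 2) ^ 2 ≤
      (∑ k ∈ range P, E k ^ 2) * ∑ k ∈ range P, (W k ^ 2) ^ 2 :=
    Finset.sum_mul_sq_le_sq_mul_sq _ _ _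
  have h5 : ∀ k, (W k ^ 2) ^ 2 = W k ^ 4 := fun k => by ring
  simp only [h5] at h4
  have h6 : ∑ k ∈ range P, E k * F k * W k = ∑ k ∈ range P, F k * (E k * W k) :=
    Finset.sum_congr rfl fun k _ => by ring
  have hF0 : 0 ≤ ∑ k ∈ range P, F k ^ 2 := Finset.sum_nonneg fun k _ => sq_nonneg _
  have h7 : (∑ k ∈ range P, F k * (E k * W k)) ^ 2 ≤
      (∑ k ∈ range P, F k ^ 2) * (e * ∑ k ∈ range P, E k * W k ^ 2) :=
    le_trans h1 (mul_le_mul_of_nonneg_left h2 hF0)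
  rw [h6]
  calc (∑ k ∈ range P, F k * (E k * W k)) ^ 4
      = ((∑ k ∈ range P, F k * (E k * W k)) ^ 2) ^ 2 := by ring
    _ ≤ ((∑ k ∈ range P, F k ^ 2) * (e * ∑ k ∈ range P, E k * W k ^ 2)) ^ 2 :=
        pow_le_pow_left₀ (sq_nonneg _) h7 2
    _ = ((∑ k ∈ range P, F k ^ 2) ^ 2 * e ^ 2) * (∑ k ∈ range P, E k * W k ^ 2) ^ 2 := by ring
    _ ≤ ((∑ k ∈ range P, F k ^ 2) ^ 2 * e ^ 2) *
        ((∑ k ∈ range P, E k ^ 2) * ∑ k ∈ range P, W k ^ 4) :=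
        mul_le_mul_of_nonneg_left h4 (mul_nonneg (sq_nonneg _) (sq_nonneg _))
    _ = (∑ k ∈ range P, F k ^ 2) ^ 2 * e ^ 2 * (∑ k ∈ range P, E k ^ 2) *
        ∑ k ∈ range P, W k ^ 4 := by ring

end Pool.Agent.EP
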