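import Pool.Agent.helper71.EP.SpecE
import Pool.Agent.helper61.TG.WT6

/-! # Project ep (MP_ebc808_nt): module EID (orthogonality) -/

set_option autoImplicit false

open Finset
open Pool.Agent.helper74.TG

namespace Pool.Agent.EP

theorem EID_mono (m : ℕ) : Monotone (hq m) := by
  intro s t hst
  unfold hq
  have h1 : s ^ 2 ≤ t ^ 2 := Nat.pow_le_pow_left hst 2
  have h2 : 3 * m * s ^ 2 ≤ 3 * m * t ^ 2 := Nat.mul_le_mul_left _ h1
  omega

theorem EID_in (a b : ℕ → ℂ) (N h : ℕ) (hN : h ≤ N) :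
    ∑ y ∈ Ioc 0 N, ∑ x ∈ Ioc 0 N, (if x + 4 * y + 1 = h then a x * b y else 0) =
      ∑ y ∈ Ioc 0 ((h - 2) / 4), a (h - 1 - 4 * y) * b y := by
  have h1 : ∀ y ∈ Ioc 0 N, ∑ x ∈ Ioc 0 N, (if x + 4 * y + 1 = h then a x * b y else 0) =
      if y ∈ Ioc 0 ((h - 2) / 4) then a (h - 1 - 4 * y) * b y else 0 := by
    intro y hy
    rw [mem_Ioc] at hy
    by_cases hc : y ∈ Ioc 0 ((h - 2) / 4)
    · rw [if_pos hc]
      rw [mem_Ioc] at hc
      rw [Finset.sum_eq_single (h - 1 - 4 * y)]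
      · rw [if_pos (by omega)]
      · intro x _ hx
        rw [if_neg (by omega)]
      · intro hx
        exfalso
        apply hx
        rw [mem_Ioc]
        omega
    · rw [if_neg hc]
      refine Finset.sum_eq_zero fun x hx => ?_
      rw [mem_Ioc] at hx hc
      rw [if_neg (by omega)]
  rw [Finset.sum_congr rfl h1, Finset.sum_ite_mem]
  refine Finset.sum_congr ?_ fun _ _ => rfl
  ext y
  rw [mem_inter, mem_Ioc, mem_Ioc]
  omega

theorem EID : EID_stmt := by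
  intro m T P a b hP
  have h1 : ∀ k ∈ range P,
      (∑ x ∈ Ioc 0 (hq m T), a x * ee (x * ((k : ℝ) / P))) *
      (∑ y ∈ Ioc 0 (hq m T), b y * ee (y * (4 * ((k : ℝ) / P)))) *
      (∑ t ∈ Ioc 0 T, ee (-((hq m t : ℝ) * ((k : ℝ) / P)))) * ee ((k : ℝ) / P) =
      ∑ t ∈ Ioc 0 T, ∑ y ∈ Ioc 0 (hq m T), ∑ x ∈ Ioc 0 (hq m T), a x * b y *
        ee (k * ((((x : ℤ) + 4 * y + 1 - hq m t : ℤ) : ℝ) / P)) := by
    intro k _
    rw [Finset.sum_mul_sum, Finset.sum_comm, Finset.mul_sum, Finset.sum_mul]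
    refine Finset.sum_congr rfl fun t _ => ?_
    rw [Finset.sum_mul, Finset.sum_mul]
    refine Finset.sum_congr rfl fun y _ => ?_
    rw [Finset.sum_mul, Finset.sum_mul]
    refine Finset.sum_congr rfl fun x _ => ?_
    have h2 : ee (k * ((((x : ℤ) + 4 * y + 1 - hq m t : ℤ) : ℝ) / P)) =
        ee (x * ((k : ℝ) / P)) * ee (y * (4 * ((k : ℝ) / P))) *
          ee (-((hq m t : ℝ) * ((k : ℝ) / P))) * ee ((k : ℝ) / P) := by
      rw [← h61.ee_add, ← h61.ee_add, ← h61.ee_add]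
      congr 1
      push_cast
      ring
    rw [h2]
    ring
  rw [Finset.sum_congr rfl h1, Finset.sum_comm]
  unfold RR
  rw [Finset.mul_sum]
  refine Finset.sum_congr rfl fun t ht => ?_
  rw [mem_Ioc] at ht
  have h3 : hq m t ≤ hq m T := EID_mono m ht.2
  have h4 : 6 ≤ hq m T := by
    unfold hq
    have : 6 * 1 ≤ 6 * T := Nat.mul_le_mul_left _ (by omega)
    omega
  have h5 := EID_in a b (hq m T) (hq m t) h3
  unfold Yt
  rw [← h5, Finset.mul_sum, Finset.sum_comm]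
  refine Finset.sum_congr rfl fun y hy => ?_
  rw [Finset.mul_sum, Finset.sum_comm]
  refine Finset.sum_congr rfl fun x hx => ?_
  rw [mem_Ioc] at hx hy
  rw [← Finset.mul_sum, h61.orth P _ (by
    rw [abs_lt]
    constructor <;> omega)]
  by_cases h6 : x + 4 * y + 1 = hq m t
  · rw [if_pos h6, if_pos (by omega)]
    ring
  · rw [if_neg h6, if_neg (by omega), mul_zero, mul_zero]

end Pool.Agent.EP
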